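import Pool.Agent.Lib.MP_087ef2_pr.Process

/-!
# Finitely many fixed points: every fixed point is an extinction probability vector

For every discrete-time branching random walk on a countable set whose generating function has only
finitely many fixed points in `[0,1]^X`, every fixed point is an extinction probability vector.
-/

open MeasureTheory Filter Topology
open Pool.Agent.Lib.MP_087ef2_pr

namespace Pool.Agent.Results.MP_087ef2_pr.FiniteFixedPoints

/-- For every branching random walk `(X, μ)` on a countable set `X` (irreducible or not), if the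
set `F_G` of the fixed points of the generating function in `[0,1]^X` is finite, then it equals the
set `E_G` of the extinction probability vectors. -/
theorem result {X : Type*} [Countable X] (μ : X → PMF (X →₀ ℕ))
    (hfin : (fixedPoints μ).Finite) : extinctionVectors μ = fixedPoints μ := by
  refine Set.Subset.antisymm ?_ fun z hz => ?_
  · rintro _ ⟨A, rfl⟩
    exact extinctionProb_mem μ A
  set A : ℕ → Set X := fun k => {y | z y ≤ 1 - 1 / ((k : ℝ) + 1)} with hA
  have hAmono : Monotone A := by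
    intro j k hjk y hy
    refine le_trans (show z y ≤ 1 - 1 / ((j : ℝ) + 1) from hy) ?_
    have h1 : (0 : ℝ) < (j : ℝ) + 1 := by positivity
    have h2 : (j : ℝ) + 1 ≤ (k : ℝ) + 1 := by
      have : (j : ℝ) ≤ k := by exact_mod_cast hjk
      linarith
    have := one_div_le_one_div_of_le h1 h2
    linarith
  set q : ℕ → X → ℝ := fun k => extinctionProb μ (A k) with hq
  have hqmem : ∀ k, q k ∈ fixedPoints μ := fun k => extinctionProb_mem μ _
  have hqanti : ∀ j k, j ≤ k → ∀ x, q k x ≤ q j x := fun j k hjk x =>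
    extinctionProb_anti μ (hAmono hjk) x
  -- the sequence is eventually constant
  obtain ⟨k₀, hk₀⟩ : ∃ k₀, ∀ k, k₀ ≤ k → q k = q k₀ := by
    have hfr : (Set.range q).Finite := hfin.subset (by rintro _ ⟨k, rfl⟩; exact hqmem k)
    obtain ⟨m, hm⟩ := hfr.exists_minimal ⟨q 0, ⟨0, rfl⟩⟩
    obtain ⟨k₀, rfl⟩ := hm.1
    refine ⟨k₀, fun k hk => ?_⟩
    have h1 : q k ≤ q k₀ := fun x => hqanti k₀ k hk x
    exact le_antisymm h1 (hm.2 ⟨k, rfl⟩ h1)
  have hzq : ∀ x, z x ≤ q k₀ x := by
    intro x
    have h1 : (0 : ℝ) < (k₀ : ℝ) + 1 := by positivity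
    refine le_extinctionProb μ hfin hz (c := 1 - 1 / ((k₀ : ℝ) + 1)) ?_ ?_ x
    · have : 1 / ((k₀ : ℝ) + 1) ≤ 1 := by
        rw [div_le_one h1]
        have : (0 : ℝ) ≤ k₀ := Nat.cast_nonneg _
        linarith
      linarith
    · have : 0 < 1 / ((k₀ : ℝ) + 1) := by positivity
      linarith
  suffices h : z = q k₀ by
    rw [h]
    exact ⟨A k₀, rfl⟩
  by_contra hne
  obtain ⟨x₀, hx₀⟩ : ∃ x, z x < q k₀ x := by
    by_contra hcon
    push Not at hcon
    exact hne (funext fun x => le_antisymm (hzq x) (hcon x))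
  have hinterp : ∀ s ∈ Set.Icc (z x₀) (q k₀ x₀), ∃ w ∈ fixedPoints μ, w x₀ = s := by
    intro s hs
    refine exists_fixed μ hz (hqmem k₀) hzq (fun k => A (k₀ + k))
      (fun j k hjk => hAmono (by omega)) (fun x hx => ?_) (fun k x => ?_) x₀ hs
    · -- `{z < 1}` is covered
      obtain ⟨n, hn⟩ := exists_nat_gt (1 / (1 - z x))
      refine ⟨n, ?_⟩
      have h1 : 0 < 1 - z x := by linarith
      change z x ≤ 1 - 1 / (((k₀ + n : ℕ) : ℝ) + 1)
      have h2 : 1 / (1 - z x) ≤ ((k₀ + n : ℕ) : ℝ) + 1 := by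
        push_cast
        have : (0 : ℝ) ≤ k₀ := Nat.cast_nonneg _
        linarith
      have h3 : 1 / (((k₀ + n : ℕ) : ℝ) + 1) ≤ 1 - z x := by
        rw [div_le_iff₀ (by positivity)]
        rw [div_le_iff₀ h1] at h2
        linarith
      linarith
    · have h1 := frozen_tendsto μ (A (k₀ + k)) z hz.1 x
      have h2 : extinctionProb μ (A (k₀ + k)) = q k₀ := hk₀ (k₀ + k) (by omega)
      rw [h2] at h1
      exact h1
  have hsub : Set.Icc (z x₀) (q k₀ x₀) ⊆ (fun w : X → ℝ => w x₀) '' fixedPoints μ := by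
    intro s hs
    obtain ⟨w, hw, hws⟩ := hinterp s hs
    exact ⟨w, hw, hws⟩
  exact (Set.Icc_infinite hx₀) ((hfin.image _).subset hsub)

end Pool.Agent.Results.MP_087ef2_pr.FiniteFixedPoints
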